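import Pool.Agent.Helper69.UW.Defs
import Pool.Agent.Helper7.UV.Mert

/-!
# UW R3, R3', R3'': the primes of the resonator
-/

set_option autoImplicit false
open MeasureTheory Set Filter Topology
open Pool.Agent.Helper69.UV (ww)
open Pool.Agent.Helper7.UV (prime_sum)
open Pool.Agent.Helper69.UW

namespace Pool.Agent.Helper7.UW

/-- Large `T`. -/
lemma adm_small {a T c m : ℝ} (hT : Real.exp (Real.exp 1) ≤ T) (h : Adm a T c m) :
    1 < T ∧ 0 < c ∧ 0 < m ∧ 0 < Real.log T ∧ 1 ≤ Real.log (Real.log T) ∧ 64 * Real.log (Real.log T) ≤ Real.log T / c := by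
  have he1 : 1 < Real.exp (Real.exp 1) := Real.one_lt_exp_iff.2 (Real.exp_pos 1)
  have hT1' : 1 < T := lt_of_lt_of_le he1 hT
  have hc : 0 < c := by linarith [h.1]
  have hm : 0 < m := by linarith [h.2.1]
  have hlog : 0 < Real.log T := Real.log_pos hT1'
  refine ⟨hT1', hc, hm, hlog, ?_, ?_⟩
  · rw [Real.le_log_iff_exp_le hlog, Real.le_log_iff_exp_le (by linarith)]
    exact hT
  · rw [le_div_iff₀ hc]
    have := h.2.2.2.2
    linarith

/-- Membership in `PR`, logarithmic form. -/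
lemma mem_PR {δ T c m : ℝ} (hT : 1 < T) (hδ : 0 < δ) (hc : 0 < c) (hm : 0 < m) (p : ℕ) :
    p ∈ PR δ T c m ↔ p.Prime ∧ Real.log T / c < Real.log p ∧ Real.log p ≤ δ * (c / m) / 64 * (Real.log T / c) := by
  have hT0 : 0 < T := by linarith
  unfold PR
  rw [Finset.mem_filter, Finset.mem_range, Nat.lt_succ_iff]
  have e1 : δ * (c / m) / 64 * (Real.log T / c) = δ / (64 * m) * Real.log T := by
    field_simp
  rw [e1]
  constructor
  · rintro ⟨h1, h2, h3⟩
    have hp0 : (0:ℝ) < p := by exact_mod_cast h2.pos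
    refine ⟨h2, ?_, ?_⟩
    · have h4 := Real.log_lt_log (by positivity) h3
      rw [Real.log_rpow hT0] at h4
      calc Real.log T / c = 1 / c * Real.log T := by ring
        _ < _ := h4
    · have h5 := (Nat.le_floor_iff (by positivity)).1 h1
      have h6 := Real.log_le_log hp0 h5
      rw [Real.log_rpow hT0] at h6
      exact h6
  · rintro ⟨h2, h3, h4⟩
    have hp0 : (0:ℝ) < p := by exact_mod_cast h2.pos
    refine ⟨?_, h2, ?_⟩
    · rw [Nat.le_floor_iff (by positivity), ← Real.log_le_log_iff hp0 (by positivity), Real.log_rpow hT0]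
      exact h4
    · rw [← Real.log_lt_log_iff (by positivity) hp0, Real.log_rpow hT0]
      calc 1 / c * Real.log T = Real.log T / c := by ring
        _ < _ := h3

/-- `∑ 1/p` over the primes with `L < log p ≤ N L`. -/
theorem sum_inv : ∃ E : ℝ, 0 < E ∧ ∀ N L : ℝ, 1 ≤ N → 0 < L → ∀ P : Finset ℕ,
    (∀ p : ℕ, p ∈ P ↔ p.Prime ∧ L < Real.log p ∧ Real.log p ≤ N * L) →
    |∑ p ∈ P, (1 / p : ℝ) - Real.log N| ≤ E / L := by
  obtain ⟨E, hE, hs⟩ := prime_sum
  refine ⟨E, hE, fun N L hN hL P hP => ?_⟩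
  have hN0 : 0 < N := by linarith
  have hab : L ≤ N * L := by nlinarith
  have hb0 : 0 < N * L := by positivity
  have h1 := hs L (N * L) hL.le hab P hP (fun u => u⁻¹) (fun u => -(u ^ 2)⁻¹)
    (fun u hu => hasDerivAt_inv (lt_of_lt_of_le hL hu.1).ne') (by
      apply ContinuousOn.neg
      apply ContinuousOn.inv₀ (by fun_prop)
      intro u hu
      have : 0 < u := lt_of_lt_of_le hL hu.1
      positivity)
  have h2 : ∑ p ∈ P, Real.log p / p * (Real.log p)⁻¹ = ∑ p ∈ P, (1 / p : ℝ) := by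
    refine Finset.sum_congr rfl fun p hp => ?_
    rw [hP] at hp
    have hl0 : 0 < Real.log p := lt_trans hL hp.2.1
    field_simp
  have h3 : ∫ u in L..(N * L), u⁻¹ = Real.log N := by
    rw [integral_inv_of_pos hL hb0]
    congr 1
    field_simp
  have h5 : |(N * L)⁻¹| + ∫ u in L..(N * L), |-(u ^ 2)⁻¹| = L⁻¹ := by
    have h6 : ∫ u in L..(N * L), |-(u ^ 2)⁻¹| = L⁻¹ - (N * L)⁻¹ := by
      have h7 : ∫ u in L..(N * L), |-(u ^ 2)⁻¹| = ∫ u in L..(N * L), (u ^ 2)⁻¹ := by
        apply intervalIntegral.integral_congr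
        intro u _
        show |-(u ^ 2)⁻¹| = (u ^ 2)⁻¹
        rw [abs_neg, abs_of_nonneg (by positivity)]
      rw [h7]
      have h8 : ∫ u in L..(N * L), (u ^ 2)⁻¹ = -(N * L)⁻¹ - -L⁻¹ := by
        apply intervalIntegral.integral_eq_sub_of_hasDerivAt (f := fun u => -u⁻¹)
        · intro u hu
          rw [uIcc_of_le hab] at hu
          have := (hasDerivAt_inv (lt_of_lt_of_le hL hu.1).ne').neg
          rw [neg_neg] at this
          exact this
        · apply ContinuousOn.intervalIntegrable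
          rw [uIcc_of_le hab]
          apply ContinuousOn.inv₀ (by fun_prop)
          intro u hu
          have : 0 < u := lt_of_lt_of_le hL hu.1
          positivity
      rw [h8]
      ring
    rw [h6, abs_of_pos (by positivity)]
    ring
  rw [h2, h3, h5] at h1
  exact h1

lemma int_inv_sq {a b : ℝ} (ha : 0 < a) (hab : a ≤ b) : ∫ u in a..b, (u ^ 2)⁻¹ = a⁻¹ - b⁻¹ := by
  have h8 : ∫ u in a..b, (u ^ 2)⁻¹ = -b⁻¹ - -a⁻¹ := by
    apply intervalIntegral.integral_eq_sub_of_hasDerivAt (f := fun u => -u⁻¹)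
    · intro u hu
      rw [uIcc_of_le hab] at hu
      have := (hasDerivAt_inv (lt_of_lt_of_le ha hu.1).ne').neg
      rw [neg_neg] at this
      exact this
    · apply ContinuousOn.intervalIntegrable
      rw [uIcc_of_le hab]
      apply ContinuousOn.inv₀ (by fun_prop)
      intro u hu
      have : 0 < u := lt_of_lt_of_le ha hu.1
      positivity
  rw [h8]
  ring

lemma cont_inv_sq {a b : ℝ} (ha : 0 < a) : ContinuousOn (fun u : ℝ => (u ^ 2)⁻¹) (Icc a b) := by
  apply ContinuousOn.inv₀ (by fun_prop)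
  intro u hu
  have : 0 < u := lt_of_lt_of_le ha hu.1
  positivity

lemma cont_inv {a b : ℝ} (ha : 0 < a) : ContinuousOn (fun u : ℝ => u⁻¹) (Icc a b) := by
  apply ContinuousOn.inv₀ (by fun_prop)
  intro u hu
  have : 0 < u := lt_of_lt_of_le ha hu.1
  positivity

/-- `∫_1^N cos(2πw)/w dw` is bounded. -/
lemma int_cos {N : ℝ} (hN : 1 ≤ N) : |∫ w in (1:ℝ)..N, Real.cos (2 * Real.pi * w) * w⁻¹| ≤ 1 := by
  have hpi := Real.pi_pos
  have hpi3 := Real.pi_gt_three
  have hN0 : 0 < N := by linarith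
  have hd : ∀ w ∈ uIcc (1:ℝ) N, HasDerivAt (fun w => Real.sin (2 * Real.pi * w) / (2 * Real.pi)) (Real.cos (2 * Real.pi * w)) w := by
    intro w _
    have h0 : HasDerivAt (fun w : ℝ => 2 * Real.pi * w) (2 * Real.pi) w := by
      have := (hasDerivAt_id w).const_mul (2 * Real.pi)
      rw [mul_one] at this
      exact this
    refine (h0.sin.div_const (2 * Real.pi)).congr_deriv ?_
    field_simp
  have hd2 : ∀ w ∈ uIcc (1:ℝ) N, HasDerivAt (fun w : ℝ => w⁻¹) (-(w ^ 2)⁻¹) w := by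
    intro w hw
    rw [uIcc_of_le hN] at hw
    exact hasDerivAt_inv (by linarith [hw.1] : 0 < w).ne'
  have hi2 : IntervalIntegrable (fun w : ℝ => -(w ^ 2)⁻¹) volume 1 N := by
    apply ContinuousOn.intervalIntegrable
    rw [uIcc_of_le hN]
    exact (cont_inv_sq one_pos).neg
  have h1 := intervalIntegral.integral_mul_deriv_eq_deriv_mul hd2 hd hi2 (by
    apply Continuous.intervalIntegrable
    fun_prop)
  have h2 : ∫ w in (1:ℝ)..N, Real.cos (2 * Real.pi * w) * w⁻¹ = ∫ w in (1:ℝ)..N, w⁻¹ * Real.cos (2 * Real.pi * w) := by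
    congr 1
    ext w
    ring
  rw [h2, h1]
  have h3 : Real.sin (2 * Real.pi * 1) = 0 := by rw [mul_one, Real.sin_two_pi]
  rw [h3, zero_div, mul_zero, sub_zero]
  have h4 : |N⁻¹ * (Real.sin (2 * Real.pi * N) / (2 * Real.pi))| ≤ 1 / 2 := by
    rw [abs_mul, abs_div, abs_of_pos (by positivity : 0 < N⁻¹), abs_of_pos (by positivity : 0 < 2 * Real.pi)]
    have h5 := Real.abs_sin_le_one (2 * Real.pi * N)
    have h6 : N⁻¹ ≤ 1 := inv_le_one_of_one_le₀ hN
    have h7 : |Real.sin (2 * Real.pi * N)| / (2 * Real.pi) ≤ 1 / 2 := by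
      rw [div_le_div_iff₀ (by positivity) (by norm_num)]
      nlinarith
    have h8 : 0 ≤ |Real.sin (2 * Real.pi * N)| / (2 * Real.pi) := by positivity
    nlinarith
  have h5 : |∫ w in (1:ℝ)..N, -(w ^ 2)⁻¹ * (Real.sin (2 * Real.pi * w) / (2 * Real.pi))| ≤ 1 / 2 := by
    have h6 := intervalIntegral.norm_integral_le_of_norm_le (μ := volume) (a := 1) (b := N)
      (f := fun w => -(w ^ 2)⁻¹ * (Real.sin (2 * Real.pi * w) / (2 * Real.pi))) (g := fun w => 1 / 2 * (w ^ 2)⁻¹) hN
      (by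
        filter_upwards with w _
        rw [Real.norm_eq_abs, abs_mul, abs_neg, abs_of_nonneg (by positivity : 0 ≤ (w ^ 2)⁻¹), abs_div,
          abs_of_pos (by positivity : 0 < 2 * Real.pi), mul_comm]
        apply mul_le_mul_of_nonneg_right _ (by positivity)
        rw [div_le_div_iff₀ (by positivity) (by norm_num)]
        have := Real.abs_sin_le_one (2 * Real.pi * w)
        nlinarith) (by
        apply IntervalIntegrable.const_mul
        apply ContinuousOn.intervalIntegrable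
        rw [uIcc_of_le hN]
        exact cont_inv_sq one_pos)
    rw [Real.norm_eq_abs, intervalIntegral.integral_const_mul, int_inv_sq one_pos hN] at h6
    refine h6.trans ?_
    have : 0 ≤ N⁻¹ := by positivity
    rw [inv_one]
    linarith
  have h6 := abs_sub (N⁻¹ * (Real.sin (2 * Real.pi * N) / (2 * Real.pi)))
    (∫ w in (1:ℝ)..N, -(w ^ 2)⁻¹ * (Real.sin (2 * Real.pi * w) / (2 * Real.pi)))
  linarith

/-- `∑ cos(2π log p/L)/p` over the primes with `L < log p ≤ N L`. -/
theorem sum_cos : ∃ E : ℝ, 0 < E ∧ ∀ N L : ℝ, 1 ≤ N → 0 < L → ∀ P : Finset ℕ,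
    (∀ p : ℕ, p ∈ P ↔ p.Prime ∧ L < Real.log p ∧ Real.log p ≤ N * L) →
    |∑ p ∈ P, Real.cos (2 * Real.pi * (Real.log p / L)) / p| ≤ 1 + E / L * (1 + Real.log N) := by
  obtain ⟨E, hE, hs⟩ := prime_sum
  refine ⟨7 * E, by positivity, fun N L hN hL P hP => ?_⟩
  have hpi := Real.pi_pos
  have hpi2 := Real.pi_lt_d2
  have hN0 : 0 < N := by linarith
  have hab : L ≤ N * L := by nlinarith
  have hb0 : 0 < N * L := by positivity
  have hlN : 0 ≤ Real.log N := Real.log_nonneg hN
  set H : ℝ → ℝ := fun u => Real.cos (2 * Real.pi * (u / L)) * u⁻¹ with hH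
  set H' : ℝ → ℝ := fun u => -Real.sin (2 * Real.pi * (u / L)) * (2 * Real.pi * (1 / L)) * u⁻¹ +
    Real.cos (2 * Real.pi * (u / L)) * -(u ^ 2)⁻¹ with hH'
  have hd : ∀ u ∈ Icc L (N * L), HasDerivAt H (H' u) u := by
    intro u hu
    have hu0 : 0 < u := lt_of_lt_of_le hL hu.1
    have h0 : HasDerivAt (fun u : ℝ => 2 * Real.pi * (u / L)) (2 * Real.pi * (1 / L)) u :=
      ((hasDerivAt_id u).div_const L).const_mul _
    exact h0.cos.mul (hasDerivAt_inv hu0.ne')
  have hc : ContinuousOn H' (Icc L (N * L)) := by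
    apply ContinuousOn.add
    · apply ContinuousOn.mul _ (cont_inv hL)
      fun_prop
    · apply ContinuousOn.mul _ (cont_inv_sq hL).neg
      fun_prop
  have h1 := hs L (N * L) hL.le hab P hP H H' hd hc
  have h2 : ∑ p ∈ P, Real.log p / p * H (Real.log p) = ∑ p ∈ P, Real.cos (2 * Real.pi * (Real.log p / L)) / p := by
    refine Finset.sum_congr rfl fun p hp => ?_
    rw [hP] at hp
    have hl0 : 0 < Real.log p := lt_trans hL hp.2.1
    rw [hH]
    field_simp
  have h3 : ∫ u in L..(N * L), H u = ∫ w in (1:ℝ)..N, Real.cos (2 * Real.pi * w) * w⁻¹ := by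
    have e1 : ∫ u in L..(N * L), H u = ∫ u in L..(N * L), (1 / L) * (Real.cos (2 * Real.pi * (u / L)) * (u / L)⁻¹) := by
      congr 1
      ext u
      rw [hH]
      field_simp
    rw [e1, intervalIntegral.integral_const_mul,
      intervalIntegral.integral_comp_div (fun w => Real.cos (2 * Real.pi * w) * w⁻¹) hL.ne', smul_eq_mul, ← mul_assoc,
      one_div_mul_cancel hL.ne', one_mul]
    congr 1
    · field_simp
    · field_simp
  have h4 : |H (N * L)| ≤ 1 / L := by
    rw [hH]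
    show |Real.cos (2 * Real.pi * (N * L / L)) * (N * L)⁻¹| ≤ _
    rw [abs_mul, abs_of_pos (by positivity : 0 < (N * L)⁻¹)]
    have h5 := Real.abs_cos_le_one (2 * Real.pi * (N * L / L))
    have h6 : (N * L)⁻¹ ≤ 1 / L := by
      rw [one_div]
      exact inv_anti₀ hL hab
    have h7 : 0 < (N * L)⁻¹ := by positivity
    nlinarith
  have h8 : ∫ u in L..(N * L), |H' u| ≤ 6.3 * (1 / L) * Real.log N + 1 / L := by
    have h9 : ∀ u ∈ Icc L (N * L), |H' u| ≤ 6.3 * (1 / L) * u⁻¹ + (u ^ 2)⁻¹ := by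
      intro u hu
      have hu0 : 0 < u := lt_of_lt_of_le hL hu.1
      rw [hH']
      show |-Real.sin (2 * Real.pi * (u / L)) * (2 * Real.pi * (1 / L)) * u⁻¹ +
        Real.cos (2 * Real.pi * (u / L)) * -(u ^ 2)⁻¹| ≤ _
      refine (abs_add_le _ _).trans (add_le_add ?_ ?_)
      · rw [abs_mul, abs_mul, abs_neg, abs_of_pos (by positivity : 0 < 2 * Real.pi * (1 / L)), abs_of_pos (by positivity : 0 < u⁻¹)]
        apply mul_le_mul_of_nonneg_right _ (by positivity)
        have h5 := Real.abs_sin_le_one (2 * Real.pi * (u / L))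
        have h6 : 2 * Real.pi * (1 / L) ≤ 6.3 * (1 / L) := by
          apply mul_le_mul_of_nonneg_right _ (by positivity)
          linarith
        have h7 : 0 < 2 * Real.pi * (1 / L) := by positivity
        nlinarith
      · rw [abs_mul, abs_neg, abs_of_pos (by positivity : 0 < (u ^ 2)⁻¹)]
        have h5 := Real.abs_cos_le_one (2 * Real.pi * (u / L))
        have h7 : 0 < (u ^ 2)⁻¹ := by positivity
        nlinarith
    have hi1 : IntervalIntegrable (fun u : ℝ => 6.3 * (1 / L) * u⁻¹) volume L (N * L) := by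
      apply IntervalIntegrable.const_mul
      apply ContinuousOn.intervalIntegrable
      rw [uIcc_of_le hab]
      exact cont_inv hL
    have hi2 : IntervalIntegrable (fun u : ℝ => (u ^ 2)⁻¹) volume L (N * L) := by
      apply ContinuousOn.intervalIntegrable
      rw [uIcc_of_le hab]
      exact cont_inv_sq hL
    have h13 : ∫ u in L..(N * L), |H' u| ≤ ∫ u in L..(N * L), (6.3 * (1 / L) * u⁻¹ + (u ^ 2)⁻¹) := by
      apply intervalIntegral.integral_mono_on hab _ (hi1.add hi2) h9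
      apply ContinuousOn.intervalIntegrable
      rw [uIcc_of_le hab]
      exact hc.abs
    rw [intervalIntegral.integral_add hi1 hi2, intervalIntegral.integral_const_mul, integral_inv_of_pos hL hb0,
      int_inv_sq hL hab] at h13
    have e1 : N * L / L = N := by field_simp
    rw [e1] at h13
    refine h13.trans ?_
    have : 0 < (N * L)⁻¹ := by positivity
    rw [one_div]
    linarith
  rw [h2, h3] at h1
  have h14 := int_cos hN
  have h15 : E * (|H (N * L)| + ∫ u in L..(N * L), |H' u|) ≤ E * (1 / L + (6.3 * (1 / L) * Real.log N + 1 / L)) := by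
    gcongr
  have h16 : E * (1 / L + (6.3 * (1 / L) * Real.log N + 1 / L)) ≤ 7 * E / L * (1 + Real.log N) := by
    have h17 : 0 ≤ E / L * Real.log N := by positivity
    have h18 : 0 ≤ E / L := by positivity
    have e2 : E * (1 / L + (6.3 * (1 / L) * Real.log N + 1 / L)) = 2 * (E / L) + 6.3 * (E / L * Real.log N) := by ring
    have e3 : 7 * E / L * (1 + Real.log N) = 7 * (E / L) + 7 * (E / L * Real.log N) := by ring
    rw [e2, e3]
    linarith
  have h19 := abs_sub_abs_le_abs_sub (∑ p ∈ P, Real.cos (2 * Real.pi * (Real.log p / L)) / p)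
    (∫ w in (1:ℝ)..N, Real.cos (2 * Real.pi * w) * w⁻¹)
  linarith

/-- R3 -/
theorem PR_facts {δ : ℝ} (hδ : 0 < δ) (hδ1 : δ ≤ 1 / 32) : ∃ c0 T0 : ℝ, ∀ T c m : ℝ, T0 ≤ T → Adm c0 T c m →
    (∀ p ∈ PR δ T c m, p.Prime ∧ Real.log T ^ 4 < p ∧ Real.log T ^ 60 < p ∧ (p : ℝ) ≤ T ^ (1 / 1000 : ℝ) ∧
      64 * m * Real.log p ≤ δ * Real.log T ∧ 1 < ww T c p) ∧
    1 ≤ ∑ p ∈ PR δ T c m, (1 / p : ℝ) ∧ ∑ p ∈ PR δ T c m, (1 / p : ℝ) ≤ ll c m := by
  obtain ⟨E, hE, hs⟩ := sum_inv
  have htend : Tendsto (fun T : ℝ => Real.log (Real.log T)) atTop atTop :=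
    Real.tendsto_log_atTop.comp Real.tendsto_log_atTop
  obtain ⟨T1, hT1⟩ := eventually_atTop.1 (htend.eventually_ge_atTop E)
  set A : ℝ := Real.log (64 / δ) with hA
  have hA1 : 1 ≤ A := by
    rw [hA, Real.le_log_iff_exp_le (by positivity), le_div_iff₀ hδ]
    have := Real.exp_one_lt_d9
    nlinarith
  refine ⟨Real.exp (A + 2), max T1 (Real.exp (Real.exp 1)), fun T c m hT hadm => ?_⟩
  have hTT1 : T1 ≤ T := (le_max_left _ _).trans hT
  have hTe : Real.exp (Real.exp 1) ≤ T := (le_max_right _ _).trans hT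
  obtain ⟨hT1', hc, hm, hlog, hll, hL64⟩ := adm_small hTe hadm
  have hT0 : 0 < T := by linarith
  have hmem := mem_PR (T := T) (c := c) (m := m) hT1' hδ hc hm
  have hm1 : 1 ≤ m := hadm.2.1
  have hL : 0 < Real.log T / c := by positivity
  have hlc : A + 2 ≤ ll c m := by
    have := hadm.log_le_ll (Real.exp_pos _)
    rwa [Real.log_exp] at this
  have hcm : 0 < c / m := by positivity
  have hlogN : Real.log (δ * (c / m) / 64) = ll c m - A := by
    have e1 : δ * (c / m) / 64 = (c / m) / (64 / δ) := by field_simp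
    rw [e1, Real.log_div hcm.ne' (by positivity)]
    rfl
  have hN : 1 ≤ δ * (c / m) / 64 := by
    rw [← Real.log_nonneg_iff (by positivity), hlogN]
    linarith
  have h1 := hs (δ * (c / m) / 64) (Real.log T / c) hN hL (PR δ T c m) hmem
  have hEL : E / (Real.log T / c) ≤ 1 := by
    rw [div_le_one hL]
    have := hT1 T hTT1
    linarith
  have h2 := abs_le.1 (h1.trans hEL)
  rw [hlogN] at h2
  refine ⟨fun p hp => ?_, by linarith [h2.1], by linarith [h2.2]⟩
  rw [hmem] at hp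
  obtain ⟨hpp, h3, h4⟩ := hp
  have hp0 : (0:ℝ) < p := by exact_mod_cast hpp.pos
  have h5 : Real.log p ≤ δ / (64 * m) * Real.log T := by
    refine h4.trans (le_of_eq ?_)
    field_simp
  refine ⟨hpp, ?_, ?_, ?_, ?_, ?_⟩
  · rw [← Real.log_lt_log_iff (by positivity) hp0, Real.log_pow]
    push_cast
    linarith
  · rw [← Real.log_lt_log_iff (by positivity) hp0, Real.log_pow]
    push_cast
    linarith
  · rw [← Real.log_le_log_iff hp0 (by positivity), Real.log_rpow hT0]
    refine h5.trans ?_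
    apply mul_le_mul_of_nonneg_right _ hlog.le
    rw [div_le_iff₀ (by positivity)]
    nlinarith
  · calc 64 * m * Real.log p ≤ 64 * m * (δ / (64 * m) * Real.log T) := by gcongr
      _ = δ * Real.log T := by field_simp
  · have e1 : ww T c p = Real.log p / (Real.log T / c) := by
      unfold ww
      field_simp
    rw [e1, lt_div_iff₀ hL, one_mul]
    exact h3

/-- R3' -/
theorem PR_mass {δ : ℝ} (hδ : 0 < δ) (hδ1 : δ ≤ 1 / 32) : ∃ c0 T0 : ℝ, ∀ T c m : ℝ, T0 ≤ T → Adm c0 T c m →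
    (1 / 2 - δ) * ll c m ≤ ∑ p ∈ PR δ T c m, sw T c p ^ 2 / p ∧
    ∑ p ∈ PR δ T c m, sw T c p ^ 2 / p ≤ (1 / 2 + δ) * ll c m := by
  obtain ⟨E, hE, hs⟩ := sum_inv
  obtain ⟨E', hE', hs'⟩ := sum_cos
  have htend : Tendsto (fun T : ℝ => Real.log (Real.log T)) atTop atTop :=
    Real.tendsto_log_atTop.comp Real.tendsto_log_atTop
  obtain ⟨T1, hT1⟩ := eventually_atTop.1 (htend.eventually_ge_atTop (max E (E' / δ)))
  set A : ℝ := Real.log (64 / δ) with hA
  have hA1 : 1 ≤ A := by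
    rw [hA, Real.le_log_iff_exp_le (by positivity), le_div_iff₀ hδ]
    have := Real.exp_one_lt_d9
    nlinarith
  refine ⟨Real.exp ((A + 3) / δ), max T1 (Real.exp (Real.exp 1)), fun T c m hT hadm => ?_⟩
  have hTT1 : T1 ≤ T := (le_max_left _ _).trans hT
  have hTe : Real.exp (Real.exp 1) ≤ T := (le_max_right _ _).trans hT
  obtain ⟨hT1', hc, hm, hlog, hll, hL64⟩ := adm_small hTe hadm
  have hT0 : 0 < T := by linarith
  have hmem := mem_PR (T := T) (c := c) (m := m) hT1' hδ hc hm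
  have hL : 0 < Real.log T / c := by positivity
  have hlc : (A + 3) / δ ≤ ll c m := by
    have := hadm.log_le_ll (Real.exp_pos _)
    rwa [Real.log_exp] at this
  have hlc2 : A + 3 ≤ δ * ll c m := by
    rw [div_le_iff₀ hδ] at hlc
    linarith
  have hl0 : 0 < ll c m := by nlinarith
  have hlc3 : A ≤ ll c m := by nlinarith
  have hcm : 0 < c / m := by positivity
  have hlogN : Real.log (δ * (c / m) / 64) = ll c m - A := by
    have e1 : δ * (c / m) / 64 = (c / m) / (64 / δ) := by field_simp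
    rw [e1, Real.log_div hcm.ne' (by positivity)]
    rfl
  have hN : 1 ≤ δ * (c / m) / 64 := by
    rw [← Real.log_nonneg_iff (by positivity), hlogN]
    linarith
  have h1 := hs (δ * (c / m) / 64) (Real.log T / c) hN hL (PR δ T c m) hmem
  have h1' := hs' (δ * (c / m) / 64) (Real.log T / c) hN hL (PR δ T c m) hmem
  have hT2 := hT1 T hTT1
  have hEL : E / (Real.log T / c) ≤ 1 := by
    rw [div_le_one hL]
    have := (le_max_left _ _).trans hT2
    linarith
  have hEL' : E' / (Real.log T / c) ≤ δ / 2 := by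
    rw [div_le_iff₀ hL]
    have h3 := (le_max_right _ _).trans hT2
    rw [div_le_iff₀ hδ] at h3
    nlinarith
  have h2 := abs_le.1 (h1.trans hEL)
  rw [hlogN] at h2 h1'
  have hww : ∀ p : ℕ, Real.log p / (Real.log T / c) = ww T c p := by
    intro p
    unfold ww
    field_simp
  simp only [hww] at h1'
  have h3 : ∑ p ∈ PR δ T c m, sw T c p ^ 2 / p =
      1 / 2 * ∑ p ∈ PR δ T c m, (1 / p : ℝ) - 1 / 2 * ∑ p ∈ PR δ T c m, Real.cos (2 * Real.pi * ww T c p) / p := by
    rw [Finset.mul_sum, Finset.mul_sum, ← Finset.sum_sub_distrib]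
    refine Finset.sum_congr rfl fun p _ => ?_
    unfold sw
    have h4 : Real.cos (2 * Real.pi * ww T c p) = 1 - 2 * Real.sin (Real.pi * ww T c p) ^ 2 := by
      rw [mul_assoc, Real.cos_two_mul]
      have := Real.sin_sq_add_cos_sq (Real.pi * ww T c p)
      linarith
    rw [h4]
    ring
  have h5 : E' / (Real.log T / c) * (1 + (ll c m - A)) ≤ δ / 2 * ll c m := by
    apply mul_le_mul hEL' (by linarith) (by linarith) (by positivity)
  have h6 := abs_le.1 h1'
  rw [h3]
  constructor <;> nlinarith [h2.1, h2.2, h6.1, h6.2]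

/-- R3'' -/
theorem KK_bd {δ : ℝ} (hδ : 0 < δ) (hδ1 : δ ≤ 1 / 32) : ∃ c0 T0 : ℝ, ∀ T c m v : ℝ, T0 ≤ T → Adm c0 T c m → |v| = vv δ c m →
    (1 - 2 * δ) * ((1 + 20 * δ) ^ 2 * K0 c m) ≤ KK δ T c m v ∧
    KK δ T c m v ≤ (1 + 2 * δ) * ((1 + 20 * δ) ^ 2 * K0 c m) := by
  obtain ⟨c1, T1, h⟩ := PR_mass hδ hδ1
  refine ⟨max c1 (Real.exp 1), T1, fun T c m v hT hadm hv => ?_⟩
  obtain ⟨h1, h2⟩ := h T c m hT (hadm.mono (le_max_left _ _))
  have he : 1 < Real.exp 1 := Real.one_lt_exp_iff.2 one_pos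
  have hl : 0 < ll c m := ll_pos (hadm.mono (le_max_right _ _)) he
  have hm : 0 < m := by linarith [hadm.2.1]
  have hpi := Real.pi_pos
  have hv2 : v ^ 2 = (1 + 20 * δ) ^ 2 * K0 c m * (2 / ll c m) := by
    rw [← sq_abs, hv]
    unfold vv K0
    rw [div_pow, mul_pow, mul_pow, Real.sq_sqrt hm.le]
    field_simp
  have h3 : KK δ T c m v = (1 + 20 * δ) ^ 2 * K0 c m * (2 / ll c m) * ∑ p ∈ PR δ T c m, sw T c p ^ 2 / p := by
    unfold KK
    rw [← hv2, Finset.mul_sum]
    refine Finset.sum_congr rfl fun p _ => ?_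
    unfold rp
    ring
  have hK : 0 ≤ (1 + 20 * δ) ^ 2 * K0 c m * (2 / ll c m) := by
    unfold K0
    positivity
  rw [h3]
  constructor
  · calc (1 - 2 * δ) * ((1 + 20 * δ) ^ 2 * K0 c m) =
          (1 + 20 * δ) ^ 2 * K0 c m * (2 / ll c m) * ((1 / 2 - δ) * ll c m) := by
            field_simp
      _ ≤ _ := mul_le_mul_of_nonneg_left h1 hK
  · calc _ ≤ (1 + 20 * δ) ^ 2 * K0 c m * (2 / ll c m) * ((1 / 2 + δ) * ll c m) := mul_le_mul_of_nonneg_left h2 hK
      _ = _ := by field_simp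

end Pool.Agent.Helper7.UW
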